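import Mathlib
import Pool.Agent.Lib.MP_551055_al.Trim.BT.Mixed
import Pool.Agent.Lib.MP_551055_al.Trim.LS.Stmts

/-!
# Trees and characters
-/

set_option autoImplicit false

namespace Pool.Agent.Lib.MP_551055_al
end Pool.Agent.Lib.MP_551055_al

namespace Pool.Agent.Lib.MP_551055_al.BT
end Pool.Agent.Lib.MP_551055_al.BT

namespace Pool.Agent.Lib.MP_551055_al.GL

open Pool.Agent.Lib.MP_551055_al

open Pool.Agent.Lib.MP_551055_al.BT

/-- There are finitely many characters and finitely many trees such that the subgroups on which the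
characters vanish and which fix a tuple of vertices have the property `P`. -/
def HasTC (G : Type) [Group G] (P : Subgroup G → Prop) : Prop :=
  ∃ (I : Type) (_ : Finite I) (χ : I → G →* Multiplicative ℤ),
    HasTrees G fun H => (∀ γ ∈ H, ∀ i, χ i γ = 1) → P H

theorem HasTC.mono {G : Type} [Group G] {P Q : Subgroup G → Prop} (h : HasTC G P)
    (hPQ : ∀ H, P H → Q H) : HasTC G Q := by
  obtain ⟨I, hI, χ, h⟩ := h
  exact ⟨I, hI, χ, h.mono fun H h1 h2 => hPQ H (h1 h2)⟩

theorem HasTC.of_hasTrees {G : Type} [Group G] {P : Subgroup G → Prop} (h : HasTrees G P) :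
    HasTC G P := ⟨Empty, inferInstance, fun i => i.elim, h.mono fun _ h1 _ => h1⟩

theorem HasTrees.all {G : Type} [Group G] {J : Type} [Finite J] {P : J → Subgroup G → Prop}
    (h : ∀ j, HasTrees G (P j)) : HasTrees G fun H => ∀ j, P j H := by
  choose K hK V act T hT hP using h
  exact ⟨Σ j, K j, inferInstance, fun k => V k.1 k.2, fun k => act k.1 k.2, fun k => T k.1 k.2,
    fun k => hT k.1 k.2, fun v H hH j => hP j (fun k => v ⟨j, k⟩) H fun γ hγ k => hH γ hγ ⟨j, k⟩⟩

theorem HasTC.all {G : Type} [Group G] {J : Type} [Finite J] {P : J → Subgroup G → Prop}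
    (h : ∀ j, HasTC G (P j)) : HasTC G fun H => ∀ j, P j H := by
  choose I hI χ h using h
  exact ⟨Σ j, I j, inferInstance, fun k => χ k.1 k.2,
    (HasTrees.all h).mono fun H h1 h2 j => h1 j fun γ hγ i => h2 γ hγ ⟨j, i⟩⟩

theorem HasTC.and {G : Type} [Group G] {P Q : Subgroup G → Prop} (h : HasTC G P)
    (h' : HasTC G Q) : HasTC G fun H => P H ∧ Q H := by
  obtain ⟨I, hI, χ, h⟩ := h
  obtain ⟨I', hI', χ', h'⟩ := h'
  exact ⟨I ⊕ I', inferInstance, Sum.elim χ χ', (h.and h').mono fun H h1 h2 =>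
    ⟨h1.1 fun γ hγ i => h2 γ hγ (Sum.inl i), h1.2 fun γ hγ i => h2 γ hγ (Sum.inr i)⟩⟩

end Pool.Agent.Lib.MP_551055_al.GL
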