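import Mathlib
import Pool.Agent.Lib.MP_551055_al.Trim.BT.SL2Z
import Pool.Agent.Lib.MP_551055_al.Trim.BT.Stab
import Pool.Agent.Lib.MP_551055_al.Trim.BT.Tree
import Pool.Agent.Lib.MP_551055_al.Trim.BT.Unip
import Pool.Agent.Lib.MP_551055_al.Trim.LS.Pos

/-!
# The dichotomy for groups of matrices with integral traces and determinants
-/

set_option autoImplicit false

namespace Pool.Agent.Lib.MP_551055_al
end Pool.Agent.Lib.MP_551055_al

namespace Pool.Agent.Lib.MP_551055_al.LS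
end Pool.Agent.Lib.MP_551055_al.LS

namespace Pool.Agent.Lib.MP_551055_al.RI
end Pool.Agent.Lib.MP_551055_al.RI

namespace Pool.Agent.Lib.MP_551055_al.BT
end Pool.Agent.Lib.MP_551055_al.BT

namespace Pool.Agent.Lib.MP_551055_al.GL

open Pool.Agent.Lib.MP_551055_al

open Pool.Agent.Lib.MP_551055_al.LS

open Pool.Agent.Lib.MP_551055_al.RI

open Pool.Agent.Lib.MP_551055_al.BT (GL2 SLZ exists_conj treeAct_comp)

section

variable {F : Type} [Field F] [Algebra ℚ F]

theorem root_int (hF : ∀ A : Subalgebra ℚ F, A.FG → Nonempty (A →ₐ[ℚ] ℚ)) (p : F) (t δ : ℤ)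
    (hδ : δ = 1 ∨ δ = -1) (h : p ^ 2 - algebraMap ℚ F t * p + algebraMap ℚ F δ = 0) :
    p = 1 ∨ p = -1 := by
  obtain ⟨s⟩ := hF (Algebra.adjoin ℚ {p}) ⟨{p}, by rw [Finset.coe_singleton]⟩
  have hpm : p ∈ Algebra.adjoin ℚ {p} := Algebra.subset_adjoin rfl
  have h1 : (⟨p, hpm⟩ : Algebra.adjoin ℚ {p}) ^ 2 -
      algebraMap ℚ (Algebra.adjoin ℚ {p}) (t : ℚ) * ⟨p, hpm⟩ +
        algebraMap ℚ (Algebra.adjoin ℚ {p}) (δ : ℚ) = 0 := Subtype.ext h
  have h2 := congrArg s h1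
  rw [map_add, map_sub, map_mul, map_pow, map_zero, s.commutes, s.commutes] at h2
  obtain ⟨q, hq⟩ : ∃ q : ℚ, q = s ⟨p, hpm⟩ := ⟨_, rfl⟩
  rw [← hq] at h2
  have h3 : q ^ 2 - t * q + δ = 0 := h2
  have hint : IsIntegral ℤ q := by
    refine ⟨Polynomial.X ^ 2 - Polynomial.C t * Polynomial.X + Polynomial.C δ, ?_, ?_⟩
    · monicity!
    · simp only [Polynomial.eval₂_add, Polynomial.eval₂_sub, Polynomial.eval₂_mul,
        Polynomial.eval₂_pow, Polynomial.eval₂_X, Polynomial.eval₂_C]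
      exact h3
  obtain ⟨z, hz⟩ := IsIntegrallyClosed.isIntegral_iff.1 hint
  have hz' : (z : ℚ) = q := hz
  rw [← hz'] at h3
  have h4 : z ^ 2 - t * z + δ = 0 := by exact_mod_cast h3
  have h5 : z * (t - z) = δ := by linear_combination (-1 : ℤ) * h4
  have h6 : (z = 1 ∨ z = -1) ∧ (t - z = 1 ∨ t - z = -1) := by
    have h7 : IsUnit (z * (t - z)) := by
      rw [h5]
      exact Int.isUnit_iff.2 hδ
    rw [IsUnit.mul_iff] at h7
    exact ⟨Int.isUnit_iff.1 h7.1, Int.isUnit_iff.1 h7.2⟩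
  have h8 : (p - algebraMap ℚ F (z : ℚ)) * (p - algebraMap ℚ F ((t - z : ℤ) : ℚ)) = 0 := by
    have e1 : algebraMap ℚ F ((t - z : ℤ) : ℚ) = algebraMap ℚ F t - algebraMap ℚ F z := by
      rw [Int.cast_sub, map_sub]
    have e2 : algebraMap ℚ F (δ : ℚ) = algebraMap ℚ F z * (algebraMap ℚ F t - algebraMap ℚ F z) := by
      rw [← h5, Int.cast_mul, map_mul, Int.cast_sub, map_sub]
    rw [e2] at h
    rw [e1]
    linear_combination h
  rcases mul_eq_zero.1 h8 with h9 | h9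
  · rw [sub_eq_zero.1 h9]
    rcases h6.1 with h10 | h10
    · left
      rw [h10]
      simp
    · right
      rw [h10]
      simp
  · rw [sub_eq_zero.1 h9]
    rcases h6.2 with h10 | h10
    · left
      rw [h10]
      simp
    · right
      rw [h10]
      simp

end

end Pool.Agent.Lib.MP_551055_al.GL
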