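import Mathlib
import Pool.Agent.Lib.MP_551055_al.Trim.BT.Poly
import Pool.Agent.Lib.MP_551055_al.Trim.BT.Stab
import Pool.Agent.Lib.MP_551055_al.Trim.RI.Linear

/-!
# Two factors
-/

set_option autoImplicit false

namespace Pool.Agent.Lib.MP_551055_al
end Pool.Agent.Lib.MP_551055_al

namespace Pool.Agent.Lib.MP_551055_al.LS
end Pool.Agent.Lib.MP_551055_al.LS

namespace Pool.Agent.Lib.MP_551055_al.RI
end Pool.Agent.Lib.MP_551055_al.RI

namespace Pool.Agent.Lib.MP_551055_al.RI.Lin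
end Pool.Agent.Lib.MP_551055_al.RI.Lin

namespace Pool.Agent.Lib.MP_551055_al.BT
end Pool.Agent.Lib.MP_551055_al.BT

namespace Pool.Agent.Lib.MP_551055_al.GL

open Pool.Agent.Lib.MP_551055_al

open Pool.Agent.Lib.MP_551055_al.LS

open Pool.Agent.Lib.MP_551055_al.RI

open Pool.Agent.Lib.MP_551055_al.RI.Lin (exists_chars)

open Pool.Agent.Lib.MP_551055_al.BT (polyZ_of_finite treeAct_comp)

/-! ## Poly-`ℤ` groups -/

/-- One of the subgroups is everything. -/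
theorem le_or_le {H : Type} [Group H] (A S T : Subgroup H) (h : ∀ γ ∈ A, γ ∈ S ∨ γ ∈ T) :
    A ≤ S ∨ A ≤ T := by
  by_contra hcon
  push Not at hcon
  obtain ⟨⟨a, ha, ha'⟩, ⟨b, hb, hb'⟩⟩ : (∃ a ∈ A, a ∉ S) ∧ ∃ b ∈ A, b ∉ T :=
    ⟨SetLike.not_le_iff_exists.1 hcon.1, SetLike.not_le_iff_exists.1 hcon.2⟩
  have h1 : a ∈ T := (h a ha).resolve_left ha'
  have h2 : b ∈ S := (h b hb).resolve_right hb'
  rcases h (a * b) (A.mul_mem ha hb) with h3 | h3
  · exact ha' ((Subgroup.mul_mem_cancel_right S h2).1 h3)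
  · exact hb' ((Subgroup.mul_mem_cancel_left T h1).1 h3)

end Pool.Agent.Lib.MP_551055_al.GL
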