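import Mathlib
import Pool.Agent.Lib.MP_551055_al.Trim.BT.SL2Z
import Pool.Agent.Lib.MP_551055_al.Trim.BT.Stab
import Pool.Agent.Lib.MP_551055_al.Trim.LS.Stmts

/-!
# `GL₂(ℤ)` acts on the tree of `SL₂(ℤ)`
-/

set_option autoImplicit false

namespace Pool.Agent.Lib.MP_551055_al
end Pool.Agent.Lib.MP_551055_al

namespace Pool.Agent.Lib.MP_551055_al.LS
end Pool.Agent.Lib.MP_551055_al.LS

namespace Pool.Agent.Lib.MP_551055_al.BT
end Pool.Agent.Lib.MP_551055_al.BT

namespace Pool.Agent.Lib.MP_551055_al.GL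

open Pool.Agent.Lib.MP_551055_al

open Pool.Agent.Lib.MP_551055_al.LS

open Pool.Agent.Lib.MP_551055_al.BT

/-- The group `GL₂(ℤ)`. -/
abbrev GLZ := Matrix.GeneralLinearGroup (Fin 2) ℤ

namespace GLZ

/-- The matrix which exchanges the basis vectors. -/
def w : Matrix (Fin 2) (Fin 2) ℤ := !![0, 1; 1, 0]

theorem w_mul_w : w * w = 1 := by
  unfold w
  decide

theorem w_det : w.det = -1 := by
  unfold w
  rw [Matrix.det_fin_two_of]
  norm_num

theorem det_cases (g : GLZ) : g.val.det = 1 ∨ g.val.det = -1 :=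
  Int.isUnit_iff.1 ((Matrix.isUnit_iff_isUnit_det g.val).1 g.isUnit)

/-- The correction. -/
def r (g : GLZ) : Matrix (Fin 2) (Fin 2) ℤ := if g.val.det = 1 then 1 else w

theorem r_pos {g : GLZ} (h : g.val.det = 1) : r g = 1 := if_pos h

theorem r_neg {g : GLZ} (h : g.val.det = -1) : r g = w := if_neg (by rw [h]; norm_num)

/-- The action on `SL₂(ℤ)`. -/
def toS (g : GLZ) (x : SLZ) : SLZ :=
  ⟨g.val * x.1 * r g, by
    rw [Matrix.det_mul, Matrix.det_mul, x.2]
    rcases det_cases g with h | h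
    · rw [r_pos h, h, Matrix.det_one]
      norm_num
    · rw [r_neg h, h, w_det]
      norm_num⟩

theorem toS_val (g : GLZ) (x : SLZ) : (toS g x).1 = g.val * x.1 * r g := rfl

theorem toS_one (x : SLZ) : toS 1 x = x := by
  refine Subtype.ext ?_
  rw [toS_val, r_pos (by rw [Units.val_one, Matrix.det_one]), Units.val_one, one_mul, mul_one]

theorem toS_mul (g g' : GLZ) (x : SLZ) : toS (g * g') x = toS g (toS g' x) := by
  refine Subtype.ext ?_
  have hd : (g * g').val.det = g.val.det * g'.val.det := by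
    rw [Units.val_mul, Matrix.det_mul]
  rw [toS_val, toS_val, toS_val, Units.val_mul]
  rcases det_cases g with h | h <;> rcases det_cases g' with h' | h' <;> rw [h, h'] at hd
  · rw [r_pos hd, r_pos h, r_pos h']
    simp only [mul_assoc, mul_one]
  · rw [r_neg (g := g * g') (by rw [hd]; norm_num), r_pos h, r_neg h']
    simp only [mul_assoc, mul_one]
  · rw [r_neg (g := g * g') (by rw [hd]; norm_num), r_neg h, r_pos h']
    simp only [mul_assoc, mul_one]
  · rw [r_pos (g := g * g') (by rw [hd]; norm_num), r_neg h, r_neg h']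
    simp only [mul_assoc, w_mul_w, mul_one]

/-- Conjugation by `w`. -/
def cw : SLZ →* SLZ where
  toFun x := ⟨w * x.1 * w, by rw [Matrix.det_mul, Matrix.det_mul, x.2, w_det]; norm_num⟩
  map_one' := Subtype.ext (by
    change w * 1 * w = 1
    rw [mul_one, w_mul_w])
  map_mul' x y := Subtype.ext (by
    change w * (x.1 * y.1) * w = w * x.1 * w * (w * y.1 * w)
    have h : w * x.1 * w * (w * y.1 * w) = w * x.1 * (w * w) * y.1 * w := by
      simp only [mul_assoc]
    rw [h, w_mul_w, mul_one]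
    simp only [mul_assoc])

theorem cw_S : cw SLZ.S = SLZ.S⁻¹ := by
  refine Subtype.ext ?_
  rw [Matrix.SpecialLinearGroup.coe_inv, SLZ.S_val, Matrix.adjugate_fin_two_of]
  change w * !![0, -1; 1, 0] * w = _
  unfold w
  decide

theorem cw_R : cw SLZ.R = SLZ.R⁻¹ := by
  refine Subtype.ext ?_
  rw [Matrix.SpecialLinearGroup.coe_inv, SLZ.R_val, Matrix.adjugate_fin_two_of]
  change w * !![0, 1; -1, 1] * w = _
  unfold w
  decide

theorem cw_mem {s : SLZ} (hs : cw s = s⁻¹) {x : SLZ} (hx : x ∈ Subgroup.zpowers s) :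
    cw x ∈ Subgroup.zpowers s := by
  obtain ⟨k, rfl⟩ := hx
  change cw (s ^ k) ∈ _
  rw [map_zpow, hs]
  exact zpow_mem (inv_mem (Subgroup.mem_zpowers s)) k

theorem toS_coset {s : SLZ} (hs : cw s = s⁻¹) (g : GLZ) {x y : SLZ}
    (h : x⁻¹ * y ∈ Subgroup.zpowers s) : (toS g x)⁻¹ * toS g y ∈ Subgroup.zpowers s := by
  obtain ⟨z, rfl⟩ : ∃ z, y = x * z := ⟨x⁻¹ * y, by group⟩
  rw [inv_mul_cancel_left] at h
  rcases det_cases g with hg | hg
  · have h1 : toS g (x * z) = toS g x * z := by
      refine Subtype.ext ?_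
      change g.val * (x.1 * z.1) * r g = g.val * x.1 * r g * z.1
      rw [r_pos hg]
      simp only [mul_assoc, mul_one]
    rw [h1, inv_mul_cancel_left]
    exact h
  · have h1 : toS g (x * z) = toS g x * cw z := by
      refine Subtype.ext ?_
      change g.val * (x.1 * z.1) * r g = g.val * x.1 * r g * (w * z.1 * w)
      rw [r_neg hg]
      have h2 : g.val * x.1 * w * (w * z.1 * w) = g.val * x.1 * (w * w) * z.1 * w := by
        simp only [mul_assoc]
      rw [h2, w_mul_w, mul_one]
      simp only [mul_assoc]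
    rw [h1, inv_mul_cancel_left]
    exact cw_mem hs h

/-- The action on the cosets. -/
def qact {s : SLZ} (hs : cw s = s⁻¹) (g : GLZ) :
    SLZ ⧸ Subgroup.zpowers s → SLZ ⧸ Subgroup.zpowers s :=
  Quotient.map (toS g) fun x y h => by
    have h1 := QuotientGroup.leftRel_apply.1 h
    exact QuotientGroup.leftRel_apply.2 (toS_coset hs g h1)

theorem qact_mk {s : SLZ} (hs : cw s = s⁻¹) (g : GLZ) (x : SLZ) :
    qact hs g (x : SLZ ⧸ Subgroup.zpowers s) = ((toS g x : SLZ) : SLZ ⧸ Subgroup.zpowers s) := rfl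

theorem qact_one {s : SLZ} (hs : cw s = s⁻¹) (x : SLZ ⧸ Subgroup.zpowers s) :
    qact hs 1 x = x := by
  induction x using QuotientGroup.induction_on with | H a => ?_
  rw [qact_mk, toS_one]

theorem qact_mul {s : SLZ} (hs : cw s = s⁻¹) (g g' : GLZ) (x : SLZ ⧸ Subgroup.zpowers s) :
    qact hs (g * g') x = qact hs g (qact hs g' x) := by
  induction x using QuotientGroup.induction_on with | H a => ?_
  rw [qact_mk, qact_mk, qact_mk, toS_mul]

/-- The action on the tree. -/
instance act : MulAction GLZ SLZ.Vx where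
  smul g
    | Sum.inl x => Sum.inl (qact cw_S g x)
    | Sum.inr x => Sum.inr (qact cw_R g x)
  one_smul := by
    rintro (x | x)
    · exact congrArg Sum.inl (qact_one cw_S x)
    · exact congrArg Sum.inr (qact_one cw_R x)
  mul_smul := by
    rintro g g' (x | x)
    · exact congrArg Sum.inl (qact_mul cw_S g g' x)
    · exact congrArg Sum.inr (qact_mul cw_R g g' x)

theorem treeAct : TreeAct GLZ SLZ.Vx SLZ.T where
  tree := SLZ.T_isTree
  adj := by
    rintro γ (x | x) (y | y) h
    · exact h.elim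
    · obtain ⟨g, rfl, rfl⟩ := h
      exact ⟨toS γ g, rfl, rfl⟩
    · obtain ⟨g, rfl, rfl⟩ := h
      exact ⟨toS γ g, rfl, rfl⟩
    · exact h.elim
  inv := by
    rintro γ (x | x) (y | y) h h1
    · exact h.elim
    · exact absurd h1 (by
        intro h2
        cases h2)
    · exact absurd h1 (by
        intro h2
        cases h2)
    · exact h.elim

/-- Elements which fix a vertex have finite order. -/
theorem pow_eq_one (g : GLZ) (x : SLZ.Vx) (h : g • x = x) : g ^ 24 = 1 := by
  have h2 : (g ^ 2) • x = x := by rw [pow_two, mul_smul, h, h]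
  have hd : (g ^ 2).val.det = 1 := by
    rw [Units.val_pow_eq_pow_val, Matrix.det_pow]
    rcases det_cases g with h1 | h1 <;> rw [h1] <;> norm_num
  let δ : SLZ := ⟨(g ^ 2).val, hd⟩
  have hδ : ∀ y : SLZ, toS (g ^ 2) y = δ * y := fun y => Subtype.ext (by
    rw [toS_val, r_pos hd, mul_one]
    rfl)
  have h3 : δ • x = x := by
    rcases x with x | x
    · induction x using QuotientGroup.induction_on with | H a => ?_
      have h4 : ((toS (g ^ 2) a : SLZ) : SLZ ⧸ Subgroup.zpowers SLZ.S) = (a : SLZ ⧸ _) :=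
        Sum.inl.inj h2
      rw [hδ] at h4
      exact congrArg Sum.inl h4
    · induction x using QuotientGroup.induction_on with | H a => ?_
      have h4 : ((toS (g ^ 2) a : SLZ) : SLZ ⧸ Subgroup.zpowers SLZ.R) = (a : SLZ ⧸ _) :=
        Sum.inr.inj h2
      rw [hδ] at h4
      exact congrArg Sum.inr h4
  have h4 := SLZ.pow_eq_one δ x h3
  have h5 : (g ^ 2).val ^ 12 = 1 := congrArg Subtype.val h4
  refine Units.ext ?_
  rw [show (24 : ℕ) = 2 * 12 from rfl, pow_mul, Units.val_pow_eq_pow_val, h5, Units.val_one]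

end GLZ

end Pool.Agent.Lib.MP_551055_al.GL
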