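import Mathlib
import Pool.Agent.Lib.MP_551055_al.Trim.BT.Latt
import Pool.Agent.Lib.MP_551055_al.Trim.GL.GLZ

/-!
# Groups of rational matrices with bounded denominators, without condition on the determinant
-/

set_option autoImplicit false

namespace Pool.Agent.Lib.MP_551055_al
end Pool.Agent.Lib.MP_551055_al

namespace Pool.Agent.Lib.MP_551055_al.BT
end Pool.Agent.Lib.MP_551055_al.BT

namespace Pool.Agent.Lib.MP_551055_al.GL

open Pool.Agent.Lib.MP_551055_al

open Pool.Agent.Lib.MP_551055_al.BT (exists_gen)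

/-- The vectors of the lattice generated by the columns. -/
def latt {Γ : Type} [Group Γ] (θ : Γ →* Matrix (Fin 2) (Fin 2) ℚ) :
    AddSubgroup (Fin 2 → ℚ) :=
  AddSubgroup.closure {v | ∃ (γ : Γ) (i : Fin 2), v = fun k => θ γ k i}

section

variable {Γ : Type} [Group Γ] (θ : Γ →* Matrix (Fin 2) (Fin 2) ℚ)

theorem latt_stable (γ : Γ) (v : Fin 2 → ℚ) (hv : v ∈ latt θ) :
    (θ γ).mulVec v ∈ latt θ := by
  induction hv using AddSubgroup.closure_induction with
  | mem v hv =>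
    obtain ⟨δ, i, rfl⟩ := hv
    refine AddSubgroup.subset_closure ⟨γ * δ, i, ?_⟩
    ext k
    rw [map_mul, Matrix.mul_apply]
    rfl
  | zero => rw [Matrix.mulVec_zero]; exact zero_mem _
  | add v w _ _ h1 h2 => rw [Matrix.mulVec_add]; exact add_mem h1 h2
  | neg v _ h1 => rw [Matrix.mulVec_neg]; exact neg_mem h1

theorem latt_int (d : ℤ) (hθ : ∀ γ i j, ∃ z : ℤ, (d : ℚ) * θ γ i j = z) (v : Fin 2 → ℚ)
    (hv : v ∈ latt θ) (i : Fin 2) : ∃ z : ℤ, (d : ℚ) * v i = z := by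
  induction hv using AddSubgroup.closure_induction with
  | mem v hv =>
    obtain ⟨δ, j, rfl⟩ := hv
    exact hθ δ i j
  | zero => exact ⟨0, by simp⟩
  | add v w _ _ h1 h2 =>
    obtain ⟨z, hz⟩ := h1
    obtain ⟨z', hz'⟩ := h2
    exact ⟨z + z', by rw [Pi.add_apply, mul_add, hz, hz']; push_cast; rfl⟩
  | neg v _ h1 =>
    obtain ⟨z, hz⟩ := h1
    exact ⟨-z, by rw [Pi.neg_apply, mul_neg, hz]; push_cast; rfl⟩

theorem latt_basis (i : Fin 2) : (fun k => (1 : Matrix (Fin 2) (Fin 2) ℚ) k i) ∈ latt θ :=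
  AddSubgroup.subset_closure ⟨1, i, by rw [map_one]⟩

/-- A basis of the lattice. -/
theorem exists_basis (d : ℤ) (hd : d ≠ 0) (hθ : ∀ γ i j, ∃ z : ℤ, (d : ℚ) * θ γ i j = z) :
    ∃ α β δ : ℤ, α ≠ 0 ∧ δ ≠ 0 ∧ (![(α : ℚ) / d, 0] ∈ latt θ) ∧
      (![(β : ℚ) / d, (δ : ℚ) / d] ∈ latt θ) ∧
      ∀ v ∈ latt θ, ∃ m n : ℤ, (d : ℚ) * v 0 = m * α + n * β ∧ (d : ℚ) * v 1 = n * δ := by
  have hd' : (d : ℚ) ≠ 0 := by exact_mod_cast hd
  let A : AddSubgroup ℤ :=
    { carrier := {a | ![(a : ℚ) / d, 0] ∈ latt θ}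
      add_mem' := fun {a b} ha hb => by
        have := (latt θ).add_mem ha hb
        have e : ![(a : ℚ) / d, 0] + ![(b : ℚ) / d, 0] = ![((a + b : ℤ) : ℚ) / d, 0] := by
          ext i; fin_cases i <;> simp [add_div]
        rwa [e] at this
      zero_mem' := by
        have e : ![((0 : ℤ) : ℚ) / d, 0] = 0 := by ext i; fin_cases i <;> simp
        show ![((0 : ℤ) : ℚ) / d, 0] ∈ latt θ
        rw [e]
        exact zero_mem _
      neg_mem' := fun {a} ha => by
        have := (latt θ).neg_mem ha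
        have e : -![(a : ℚ) / d, 0] = ![((-a : ℤ) : ℚ) / d, 0] := by
          ext i; fin_cases i <;> simp [neg_div]
        rwa [e] at this }
  let B : AddSubgroup ℤ :=
    { carrier := {b | ∃ a : ℤ, ![(a : ℚ) / d, (b : ℚ) / d] ∈ latt θ}
      add_mem' := fun {b b'} h h' => by
        obtain ⟨a, ha⟩ := h
        obtain ⟨a', ha'⟩ := h'
        refine ⟨a + a', ?_⟩
        have := add_mem ha ha'
        have e : ![(a : ℚ) / d, (b : ℚ) / d] + ![(a' : ℚ) / d, (b' : ℚ) / d] =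
            ![((a + a' : ℤ) : ℚ) / d, ((b + b' : ℤ) : ℚ) / d] := by
          ext i; fin_cases i <;> simp [add_div]
        rwa [e] at this
      zero_mem' := by
        refine ⟨0, ?_⟩
        have e : ![((0 : ℤ) : ℚ) / d, ((0 : ℤ) : ℚ) / d] = 0 := by ext i; fin_cases i <;> simp
        rw [e]
        exact zero_mem _
      neg_mem' := fun {b} h => by
        obtain ⟨a, ha⟩ := h
        refine ⟨-a, ?_⟩
        have := neg_mem ha
        have e : -![(a : ℚ) / d, (b : ℚ) / d] = ![((-a : ℤ) : ℚ) / d, ((-b : ℤ) : ℚ) / d] := by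
          ext i; fin_cases i <;> simp [neg_div]
        rwa [e] at this }
  have hdA : d ∈ A := by
    have h := latt_basis θ 0
    have e : (fun k => (1 : Matrix (Fin 2) (Fin 2) ℚ) k 0) = ![(d : ℚ) / d, 0] := by
      ext i; fin_cases i <;> simp [hd', Matrix.one_apply]
    rwa [e] at h
  have hdB : d ∈ B := by
    have h := latt_basis θ 1
    refine ⟨0, ?_⟩
    have e : (fun k => (1 : Matrix (Fin 2) (Fin 2) ℚ) k 1) = ![((0 : ℤ) : ℚ) / d, (d : ℚ) / d] := by
      ext i; fin_cases i <;> simp [hd', Matrix.one_apply]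
    rwa [e] at h
  obtain ⟨α, hα0, hα, hα'⟩ := exists_gen A d hd hdA
  obtain ⟨δ, hδ0, ⟨β, hβ⟩, hδ'⟩ := exists_gen B d hd hdB
  refine ⟨α, β, δ, hα0, hδ0, hα, hβ, fun v hv => ?_⟩
  obtain ⟨a, ha⟩ := latt_int θ d hθ v hv 0
  obtain ⟨b, hb⟩ := latt_int θ d hθ v hv 1
  have hbB : b ∈ B := by
    refine ⟨a, ?_⟩
    have e : ![(a : ℚ) / d, (b : ℚ) / d] = v := by
      ext i
      fin_cases i
      · show (a : ℚ) / d = v 0
        rw [← ha]
        field_simp
      · show (b : ℚ) / d = v 1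
        rw [← hb]
        field_simp
    rw [e]
    exact hv
  obtain ⟨n, hn⟩ := hδ' b hbB
  have haA : a - n * β ∈ A := by
    have h1 := sub_mem hv (zsmul_mem hβ n)
    have e : v - n • ![(β : ℚ) / d, (δ : ℚ) / d] = ![((a - n * β : ℤ) : ℚ) / d, 0] := by
      ext i
      fin_cases i
      · show v 0 - n • ((β : ℚ) / d) = ((a - n * β : ℤ) : ℚ) / d
        rw [zsmul_eq_mul]
        push_cast
        rw [← ha]
        field_simp
      · show v 1 - n • ((δ : ℚ) / d) = 0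
        have hb' : (d : ℚ) * v 1 = n * δ := by
          rw [hb, hn]
          push_cast
          ring
        rw [zsmul_eq_mul]
        field_simp
        linear_combination hb'
    rwa [e] at h1
  obtain ⟨m, hm⟩ := hα' _ haA
  refine ⟨m, n, ?_, ?_⟩
  · rw [ha]
    have : a = m * α + n * β := by linarith
    rw [this]
    push_cast
    ring
  · rw [hb, hn]
    push_cast
    ring

/-- **Bounded denominators**: after a change of the basis the matrices are integral. -/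
theorem exists_integral (d : ℤ) (hd : d ≠ 0) (hθ : ∀ γ i j, ∃ z : ℤ, (d : ℚ) * θ γ i j = z) :
    ∃ φ : Γ →* GLZ, (∀ γ, φ γ = 1 → θ γ = 1) ∧
      (∀ γ, Matrix.trace (θ γ) = ((Matrix.trace (φ γ).val : ℤ) : ℚ)) ∧
      ∀ γ, Matrix.det (θ γ) = ((Matrix.det (φ γ).val : ℤ) : ℚ) := by
  have hd' : (d : ℚ) ≠ 0 := by exact_mod_cast hd
  obtain ⟨α, β, δ, hα, hδ, h1, h2, h3⟩ := exists_basis θ d hd hθ
  have hα' : (α : ℚ) ≠ 0 := by exact_mod_cast hα
  have hδ' : (δ : ℚ) ≠ 0 := by exact_mod_cast hδ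
  -- the integral matrices
  have key : ∀ γ, ∃ a b c e : ℤ, θ γ 0 0 * α = a * α + c * β ∧ θ γ 1 0 * α = c * δ ∧
      θ γ 0 0 * β + θ γ 0 1 * δ = b * α + e * β ∧ θ γ 1 0 * β + θ γ 1 1 * δ = e * δ := by
    intro γ
    obtain ⟨a, c, h4, h5⟩ := h3 _ (latt_stable θ γ _ h1)
    obtain ⟨b, e, h6, h7⟩ := h3 _ (latt_stable θ γ _ h2)
    refine ⟨a, b, c, e, ?_, ?_, ?_, ?_⟩
    · rw [← h4]
      simp [Matrix.mulVec, dotProduct, Fin.sum_univ_two]
      field_simp
    · rw [← h5]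
      simp [Matrix.mulVec, dotProduct, Fin.sum_univ_two]
      field_simp
    · rw [← h6]
      simp [Matrix.mulVec, dotProduct, Fin.sum_univ_two]
      field_simp
    · rw [← h7]
      simp [Matrix.mulVec, dotProduct, Fin.sum_univ_two]
      field_simp
  choose a b c e k1 k2 k3 k4 using key
  set P : Matrix (Fin 2) (Fin 2) ℚ := !![(α : ℚ), β; 0, δ] with hP
  have hPdet : P.det ≠ 0 := by
    rw [hP, Matrix.det_fin_two_of, mul_zero, sub_zero]
    exact mul_ne_zero hα' hδ'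
  have hPu : IsUnit P.det := isUnit_iff_ne_zero.2 hPdet
  let M : Γ → Matrix (Fin 2) (Fin 2) ℤ := fun γ => !![a γ, b γ; c γ, e γ]
  have hM : ∀ γ, θ γ * P = P * (M γ).map (Int.castRingHom ℚ) := by
    intro γ
    have q1 := k1 γ
    have q2 := k2 γ
    have q3 := k3 γ
    have q4 := k4 γ
    ext i j
    fin_cases i <;> fin_cases j <;>
      simp [hP, M, Matrix.mul_apply, Fin.sum_univ_two] <;> linarith
  have hcancel : ∀ X Y : Matrix (Fin 2) (Fin 2) ℤ, P * X.map (Int.castRingHom ℚ) =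
      P * Y.map (Int.castRingHom ℚ) → X = Y := by
    intro X Y h
    have h' := congrArg (fun Z => P⁻¹ * Z) h
    simp only [← mul_assoc, Matrix.nonsing_inv_mul P hPu, one_mul] at h'
    ext i j
    have h'' : ((X i j : ℤ) : ℚ) = ((Y i j : ℤ) : ℚ) := congrFun (congrFun h' i) j
    exact_mod_cast h''
  have hMone : M 1 = 1 := by
    refine hcancel _ _ ?_
    rw [← hM, map_one, one_mul, Matrix.map_one _ (map_zero _) (map_one _), mul_one]
  have hMmul : ∀ γ δ', M (γ * δ') = M γ * M δ' := by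
    intro γ δ'
    refine hcancel _ _ ?_
    rw [← hM, map_mul, mul_assoc, hM, ← mul_assoc, hM, mul_assoc, Matrix.map_mul]
  let φ : Γ →* GLZ := MonoidHom.toHomUnits ⟨⟨M, hMone⟩, hMmul⟩
  have hφ : ∀ γ, (φ γ).val = M γ := fun γ => rfl
  have h5 : ∀ γ, θ γ = P * (M γ).map (Int.castRingHom ℚ) * P⁻¹ := fun γ => by
    rw [← hM, mul_assoc, Matrix.mul_nonsing_inv P hPu, mul_one]
  refine ⟨φ, fun γ h => ?_, fun γ => ?_, fun γ => ?_⟩
  · have h4 : M γ = 1 := by rw [← hφ, h, Units.val_one]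
    rw [h5, h4, Matrix.map_one _ (map_zero _) (map_one _), mul_one,
      Matrix.mul_nonsing_inv P hPu]
  · rw [h5, hφ, Matrix.trace_mul_comm, ← mul_assoc, Matrix.nonsing_inv_mul P hPu, one_mul,
      Matrix.trace_fin_two, Matrix.trace_fin_two]
    simp
  · rw [h5, hφ, Matrix.det_mul_right_comm, Matrix.mul_nonsing_inv P hPu, one_mul,
      ← RingHom.mapMatrix_apply, ← RingHom.map_det]
    rfl

end

end Pool.Agent.Lib.MP_551055_al.GL
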