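import Mathlib
import Pool.Agent.Lib.MP_551055_al.Trim.BT.HtCrit
import Pool.Agent.Lib.MP_551055_al.Trim.LS.Stmts
import Pool.Agent.Lib.MP_551055_al.Trim.MT.Flow2
import Pool.Agent.Lib.MP_551055_al.Trim.MT.K1
import Pool.Agent.Lib.MP_551055_al.Trim.RI.Main
import Pool.Agent.Lib.MP_551055_al.Trim.RI.Stmts
import Pool.Agent.Lib.MP_551055_al.Trim.RI.T2
import Pool.Agent.Lib.MP_551055_al.Trim.W17.KT

/-!
# The tree of a character
-/

set_option autoImplicit false

namespace Pool.Agent.Lib.MP_551055_al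
end Pool.Agent.Lib.MP_551055_al

namespace Pool.Agent.Lib.MP_551055_al.LS
end Pool.Agent.Lib.MP_551055_al.LS

namespace Pool.Agent.Lib.MP_551055_al.RI
end Pool.Agent.Lib.MP_551055_al.RI

namespace Pool.Agent.Lib.MP_551055_al.GL

open Pool.Agent.Lib.MP_551055_al

open Pool.Agent.Lib.MP_551055_al.LS

open Pool.Agent.Lib.MP_551055_al.RI

/-- The line. -/
def lineGr : SimpleGraph ℤ where
  Adj a b := b = a + 1 ∨ a = b + 1
  symm := ⟨fun _ _ h => h.symm⟩
  loopless := ⟨fun a h => by
    rcases h with h | h <;> omega⟩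

theorem lineGr_isTree : lineGr.IsTree := by
  refine BT.isTree_of_height lineGr (fun n => n.natAbs) 0 ?_ ?_ ?_
  · intro x y h
    rcases h with h | h <;> omega
  · intro x hx
    rcases lt_or_gt_of_ne hx with h | h
    · refine ⟨x + 1, Or.inl rfl, ?_⟩
      omega
    · refine ⟨x - 1, Or.inr (by omega), ?_⟩
      omega
  · intro x y z hy hz h1 h2
    change y.natAbs < x.natAbs at h1
    change z.natAbs < x.natAbs at h2
    rcases hy with hy | hy <;> rcases hz with hz | hz <;> omega

section

variable {G : Type} [Group G]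

/-- The action on the line. -/
@[instance_reducible] def lineAct (χ : G →* Multiplicative ℤ) : MulAction G ℤ where
  smul g n := (χ g).toAdd + n
  one_smul n := by
    change (χ 1).toAdd + n = n
    rw [map_one, toAdd_one, zero_add]
  mul_smul g h n := by
    change (χ (g * h)).toAdd + n = (χ g).toAdd + ((χ h).toAdd + n)
    rw [map_mul, toAdd_mul, add_assoc]

/-- The line as a tree with an action. -/
def lineB (χ : G →* Multiplicative ℤ) : BTree G where
  V := ℤ
  act := lineAct χ
  T := lineGr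
  tree := by
    refine @TreeAct.mk G _ ℤ (lineAct χ) lineGr lineGr_isTree ?_ ?_
    · intro γ u v h
      change (χ γ).toAdd + v = (χ γ).toAdd + u + 1 ∨ (χ γ).toAdd + u = (χ γ).toAdd + v + 1
      rcases h with h | h
      · left
        rw [h, add_assoc]
      · right
        rw [h, add_assoc]
    · intro γ u v h h1 h2
      have h3 : (χ γ).toAdd + u = v := h1
      have h4 : (χ γ).toAdd + v = u := h2
      rcases h with h | h <;> omega

theorem lineB_fix (χ : G →* Multiplicative ℤ) (g : G) (v : (lineB χ).V) (h : g • v = v) :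
    χ g = 1 := by
  have h1 : (χ g).toAdd + (show ℤ from v) = (show ℤ from v) := h
  have h2 : (χ g).toAdd = 0 := by
    have h3 : (χ g).toAdd + (show ℤ from v) = 0 + (show ℤ from v) := by rw [zero_add]; exact h1
    exact add_right_cancel h3
  exact Multiplicative.toAdd.injective h2

variable {X : Cls}

/-- **One character.** -/
theorem cl_line {l : ℕ} (hl : l ≤ 2) (χ : G →* Multiplicative ℤ) (F : Subgroup G → Prop)
    (h : X.Cl l G fun E => F E ∧ ∀ e ∈ E, χ e = 1) : X.Cl l G F := by
  refine Cls.Cl.tree l G F (lineB χ).all (fun v => ?_) ?_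
  · refine h.pull (MulAction.stabilizer G v).subtype Subtype.val_injective fun E hE => ⟨hE, ?_⟩
    rintro _ ⟨e, -, rfl⟩
    exact lineB_fix χ e v e.2
  · rw [Nat.min_eq_left hl]
    refine h.pull (MonoidHom.id G) (fun _ _ h => h) fun E hE => ?_
    obtain ⟨h1, u, v, -, -, h2⟩ := hE
    rw [Subgroup.map_id]
    exact ⟨h1, fun e he => lineB_fix χ e u (h2 e he).1⟩

/-- **Finitely many characters.** -/
theorem cl_lines {l : ℕ} (hl : l ≤ 2) {I : Type} [Finite I] (χ : I → G →* Multiplicative ℤ)
    (F : Subgroup G → Prop) (h : X.Cl l G fun E => F E ∧ ∀ e ∈ E, ∀ i, χ i e = 1) :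
    X.Cl l G F := by
  have key : ∀ (n : ℕ) (χ : Fin n → G →* Multiplicative ℤ) (F : Subgroup G → Prop),
      (X.Cl l G fun E => F E ∧ ∀ e ∈ E, ∀ i, χ i e = 1) → X.Cl l G F := by
    intro n
    induction n with
    | zero =>
      intro χ F h
      refine h.pull (MonoidHom.id G) (fun _ _ h => h) fun E hE => ?_
      rw [Subgroup.map_id]
      exact ⟨hE, fun e _ i => i.elim0⟩
    | succ n ih =>
      intro χ F h
      refine ih (fun i => χ i.succ) F (cl_line hl (χ 0) _ ?_)
      refine h.pull (MonoidHom.id G) (fun _ _ h => h) fun E hE => ?_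
      rw [Subgroup.map_id]
      exact ⟨hE.1.1, fun e he i => Fin.cases (hE.2 e he) (fun i => hE.1.2 e he i) i⟩
  obtain ⟨n, ⟨e⟩⟩ := Finite.exists_equiv_fin I
  refine key n (fun i => χ (e.symm i)) F ?_
  refine h.pull (MonoidHom.id G) (fun _ _ h => h) fun E hE => ?_
  rw [Subgroup.map_id]
  refine ⟨hE.1, fun x hx i => ?_⟩
  have h1 := hE.2 x hx (e i)
  rwa [e.symm_apply_apply] at h1

end

end Pool.Agent.Lib.MP_551055_al.GL
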