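import Mathlib
import Pool.Agent.Lib.MP_551055_al.Trim.BT.HtCrit
import Pool.Agent.Lib.MP_551055_al.Trim.LS.Stmts
import Pool.Agent.Lib.MP_551055_al.Trim.LS.TreeB

/-!
# The barycentric subdivision of a tree
-/

set_option autoImplicit false

namespace Pool.Agent.Lib.MP_551055_al
end Pool.Agent.Lib.MP_551055_al

namespace Pool.Agent.Lib.MP_551055_al.LS
end Pool.Agent.Lib.MP_551055_al.LS

namespace Pool.Agent.Lib.MP_551055_al.GL

open Pool.Agent.Lib.MP_551055_al

open Pool.Agent.Lib.MP_551055_al.LS

section

variable {V : Type} (T : SimpleGraph V)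

/-- Vertices and edges. -/
abbrev SV : Type := V ⊕ T.edgeSet

/-- The neighbours. -/
def sadj : SV T → SV T → Prop
  | Sum.inl v, Sum.inr e => v ∈ e.1
  | Sum.inr e, Sum.inl v => v ∈ e.1
  | Sum.inl _, Sum.inl _ => False
  | Sum.inr _, Sum.inr _ => False

/-- The barycentric subdivision. -/
def sd : SimpleGraph (SV T) where
  Adj := sadj T
  symm := ⟨by
    rintro (x | x) (y | y) h
    · exact h
    · exact h
    · exact h
    · exact h⟩
  loopless := ⟨by
    rintro (x | x) h
    · exact h
    · exact h⟩

variable {T}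

/-- The height. -/
noncomputable def sht (T : SimpleGraph V) (r : V) : SV T → ℕ
  | Sum.inl v => T.dist r v + T.dist r v
  | Sum.inr e => Sym2.lift ⟨fun a b => T.dist r a + T.dist r b, fun _ _ => Nat.add_comm _ _⟩ e.1

theorem sht_inr (r : V) {a b : V} (hab : s(a, b) ∈ T.edgeSet) :
    sht T r (Sum.inr ⟨s(a, b), hab⟩) = T.dist r a + T.dist r b := rfl

theorem sd_isTree (hT : T.IsTree) : (sd T).IsTree := by
  obtain ⟨r⟩ := hT.connected.nonempty
  have hd : ∀ a b, T.Adj a b → T.dist r a = T.dist r b + 1 ∨ T.dist r b = T.dist r a + 1 :=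
    fun a b hab => hT.dist_eq_dist_add_one_of_adj r hab
  refine BT.isTree_of_height (sd T) (sht T r) (Sum.inl r) ?_ ?_ ?_
  · rintro (x | ⟨e, he⟩) (y | ⟨e', he'⟩) h
    · exact h.elim
    · induction e' with | _ a b => ?_
      have hab : T.Adj a b := he'
      have h1 : x ∈ s(a, b) := h
      rw [sht_inr]
      change T.dist r x + T.dist r x ≠ _
      rcases Sym2.mem_iff.1 h1 with rfl | rfl
      · rcases hd _ _ hab with h2 | h2 <;> omega
      · rcases hd _ _ hab with h2 | h2 <;> omega
    · induction e with | _ a b => ?_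
      have hab : T.Adj a b := he
      have h1 : y ∈ s(a, b) := h
      rw [sht_inr]
      change _ ≠ T.dist r y + T.dist r y
      rcases Sym2.mem_iff.1 h1 with rfl | rfl
      · rcases hd _ _ hab with h2 | h2 <;> omega
      · rcases hd _ _ hab with h2 | h2 <;> omega
    · exact h.elim
  · rintro (x | ⟨e, he⟩) hx
    · obtain ⟨n, hn⟩ : ∃ n, T.dist r x = n + 1 := by
        have h1 : T.dist r x ≠ 0 := fun h => hx (by
          rw [hT.connected.dist_eq_zero_iff.1 h])
        exact ⟨T.dist r x - 1, by omega⟩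
      obtain ⟨w, hw, hdw⟩ := tree_exists_pred hT hn
      have hxw : s(x, w) ∈ T.edgeSet := hw.symm
      refine ⟨Sum.inr ⟨s(x, w), hxw⟩, Sym2.mem_mk_left x w, ?_⟩
      rw [sht_inr]
      change _ < T.dist r x + T.dist r x
      omega
    · induction e with | _ a b => ?_
      have hab : T.Adj a b := he
      rcases hd _ _ hab with h2 | h2
      · refine ⟨Sum.inl b, Sym2.mem_mk_right a b, ?_⟩
        rw [sht_inr]
        change T.dist r b + T.dist r b < _
        omega
      · refine ⟨Sum.inl a, Sym2.mem_mk_left a b, ?_⟩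
        rw [sht_inr]
        change T.dist r a + T.dist r a < _
        omega
  · rintro (x | ⟨e, he⟩) (y | ⟨e', he'⟩) (z | ⟨e'', he''⟩) hy hz h1 h2
    · exact hy.elim
    · exact hy.elim
    · exact hz.elim
    · have key : ∀ (f : Sym2 V) (hf : f ∈ T.edgeSet), x ∈ f →
          sht T r (Sum.inr ⟨f, hf⟩) < sht T r (Sum.inl x) →
          ∃ w, f = s(x, w) ∧ T.Adj w x ∧ T.dist r w + 1 = T.dist r x := by
        intro f hf hxf hlt
        obtain ⟨w, rfl⟩ := Sym2.mem_iff_exists.1 hxf
        have hxw : T.Adj x w := hf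
        rw [sht_inr] at hlt
        change _ < T.dist r x + T.dist r x at hlt
        refine ⟨w, rfl, hxw.symm, ?_⟩
        rcases hd _ _ hxw with h3 | h3 <;> omega
      obtain ⟨w, rfl, hw1, hw2⟩ := key e' he' hy h1
      obtain ⟨w', rfl, hw3, hw4⟩ := key e'' he'' hz h2
      have h5 : T.dist w x = 1 := T.dist_eq_one_iff_adj.2 hw1
      have h6 : T.dist w' x = 1 := T.dist_eq_one_iff_adj.2 hw3
      have h7 : w = w' := tree_eq_of_dist hT (x := r) (z := x) (by omega) (by omega) (by omega)
      subst h7
      rfl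
    · induction e with | _ a b => ?_
      have hab : T.Adj a b := he
      have h3 : y ∈ s(a, b) := hy
      have h4 : z ∈ s(a, b) := hz
      rw [sht_inr] at h1 h2
      change T.dist r y + T.dist r y < _ at h1
      change T.dist r z + T.dist r z < _ at h2
      rcases Sym2.mem_iff.1 h3 with rfl | rfl <;> rcases Sym2.mem_iff.1 h4 with rfl | rfl
      · rfl
      · exfalso
        omega
      · exfalso
        omega
      · rfl
    · exact hz.elim
    · exact hy.elim
    · exact hy.elim

end

section

variable {G : Type} [Group G] {V : Type} [MulAction G V] {T : SimpleGraph V}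

/-- The action on the subdivision. -/
@[instance_reducible] def sact (h : ∀ (g : G) u v, T.Adj u v → T.Adj (g • u) (g • v)) : MulAction G (SV T) where
  smul g
    | Sum.inl v => Sum.inl (g • v)
    | Sum.inr e => Sum.inr ⟨e.1.map fun v => g • v, by
        obtain ⟨e, he⟩ := e
        induction e with | _ a b => ?_
        exact h g a b he⟩
  one_smul := by
    rintro (v | ⟨e, he⟩)
    · exact congrArg Sum.inl (one_smul G v)
    · refine congrArg Sum.inr (Subtype.ext ?_)
      change e.map (fun v => (1 : G) • v) = e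
      simp only [one_smul]
      exact congrFun Sym2.map_id' e
  mul_smul := by
    rintro a b (v | ⟨e, he⟩)
    · exact congrArg Sum.inl (mul_smul a b v)
    · refine congrArg Sum.inr (Subtype.ext ?_)
      change e.map (fun v => (a * b) • v) = (e.map fun v => b • v).map fun v => a • v
      rw [Sym2.map_map]
      simp only [mul_smul]
      rfl

theorem sd_treeAct (hT : T.IsTree) (h : ∀ (g : G) u v, T.Adj u v → T.Adj (g • u) (g • v)) :
    @TreeAct G _ (SV T) (sact h) (sd T) := by
  refine @TreeAct.mk G _ (SV T) (sact h) (sd T) (sd_isTree hT) ?_ ?_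
  · rintro γ (x | ⟨e, he⟩) (y | ⟨e', he'⟩) h1
    · exact h1.elim
    · exact Sym2.mem_map.2 ⟨x, h1, rfl⟩
    · exact Sym2.mem_map.2 ⟨y, h1, rfl⟩
    · exact h1.elim
  · rintro γ (x | ⟨e, he⟩) (y | ⟨e', he'⟩) h1 h2
    · exact h1.elim
    · exact absurd h2 (by
        intro h3
        cases h3)
    · exact absurd h2 (by
        intro h3
        cases h3)
    · exact h1.elim

/-- The elements which do not move a vertex to a neighbour and fix a point of the subdivision fix
a vertex. -/
theorem exists_fixed (h : ∀ (g : G) u v, T.Adj u v → T.Adj (g • u) (g • v)) (x : SV T) :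
    ∃ v : V, ∀ g : G, (sact h).smul g x = x → (∀ y, ¬T.Adj y (g • y)) → g • v = v := by
  rcases x with x | ⟨e, he⟩
  · exact ⟨x, fun g hg _ => Sum.inl.inj hg⟩
  · induction e with | _ a b => ?_
    have hab : T.Adj a b := he
    refine ⟨a, fun g hg hn => ?_⟩
    have h1 : s(g • a, g • b) = s(a, b) := congrArg Subtype.val (Sum.inr.inj hg)
    rcases Sym2.eq_iff.1 h1 with ⟨h2, -⟩ | ⟨h2, -⟩
    · exact h2
    · exact absurd (h2 ▸ hab) (hn a)

end

end Pool.Agent.Lib.MP_551055_al.GL
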