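import Mathlib
import Pool.Agent.Lib.MP_551055_al.Trim.BT.Char0
import Pool.Agent.Lib.MP_551055_al.Trim.BT.DV
import Pool.Agent.Lib.MP_551055_al.Trim.BT.Field1
import Pool.Agent.Lib.MP_551055_al.Trim.BT.Lift
import Pool.Agent.Lib.MP_551055_al.Trim.BT.Mixed
import Pool.Agent.Lib.MP_551055_al.Trim.BT.PAdic
import Pool.Agent.Lib.MP_551055_al.Trim.BT.Places
import Pool.Agent.Lib.MP_551055_al.Trim.BT.Tree
import Pool.Agent.Lib.MP_551055_al.Trim.GL.Chars
import Pool.Agent.Lib.MP_551055_al.Trim.GL.GLZ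
import Pool.Agent.Lib.MP_551055_al.Trim.GL.Int
import Pool.Agent.Lib.MP_551055_al.Trim.GL.Sub
import Pool.Agent.Lib.MP_551055_al.Trim.LS.Stmts
import Pool.Agent.Lib.MP_551055_al.Trim.T4.Ind0

/-!
# Trees and characters for groups of matrices over a field of characteristic zero
-/

set_option autoImplicit false

namespace Pool.Agent.Lib.MP_551055_al
end Pool.Agent.Lib.MP_551055_al

namespace Pool.Agent.Lib.MP_551055_al.LS
end Pool.Agent.Lib.MP_551055_al.LS

namespace Pool.Agent.Lib.MP_551055_al.BT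
end Pool.Agent.Lib.MP_551055_al.BT

namespace Pool.Agent.Lib.MP_551055_al.GL

open Pool.Agent.Lib.MP_551055_al

open Pool.Agent.Lib.MP_551055_al.LS

open Pool.Agent.Lib.MP_551055_al.BT

/-- The tree of a valuation. -/
theorem hasTC_dv {L : Type} [Field L] (v : DV L) {G : Type} [Group G] (ρ : G →* GL2 L) :
    HasTC G fun H => ∃ x : v.Vt, ∀ γ ∈ H, v.o (ρ γ).val.det = 0 ∧ ρ γ • x = x := by
  let act : MulAction G v.Vt := MulAction.compHom v.Vt ρ
  have hadj : ∀ (g : G) (u w : v.Vt), v.T.Adj u w → v.T.Adj (g • u) (g • w) :=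
    fun g u w h => v.adj_smul (ρ g) u w h
  refine ⟨Unit, inferInstance, fun _ => v.ordDet ρ, Unit, inferInstance, fun _ => SV v.T,
    fun _ => sact hadj, fun _ => sd v.T, fun _ => sd_treeAct v.T_isTree hadj,
    fun x H hH hχ => ?_⟩
  obtain ⟨w, hw⟩ := exists_fixed hadj (x ())
  refine ⟨w, fun γ hγ => ?_⟩
  have h1 : v.o (ρ γ).val.det = 0 := hχ γ hγ ()
  exact ⟨h1, hw γ (hH γ hγ ()) fun y hy => v.no_inv (ρ γ) (by rw [h1]; exact ⟨0, rfl⟩) y hy⟩

/-- **The trees of the function field.** -/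
theorem hasTC_function (A : Type) [CommRing A] [IsDomain A] [Algebra ℚ A] (S : Finset A)
    (hS : Algebra.adjoin ℚ (S : Set A) = ⊤) (s : A →ₐ[ℚ] ℚ) {G : Type} [Group G]
    (ρ : G →* Matrix.GeneralLinearGroup (Fin 2) A) :
    HasTC G fun H => ∀ γ ∈ H, algebraMap ℚ A (s (ρ γ).val.trace) = (ρ γ).val.trace ∧
      algebraMap ℚ A (s (ρ γ).val.det) = (ρ γ).val.det := by
  classical
  have hft : Algebra.FiniteType ℚ A := ⟨⟨S, hS⟩⟩
  obtain ⟨L, i1, i2, i3⟩ : ∃ (L : Type) (_ : Field L) (_ : Algebra A L), IsFractionRing A L :=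
    ⟨FractionRing A, inferInstance, inferInstance, inferInstance⟩
  let i4 : Algebra ℚ L := ((algebraMap A L).comp (algebraMap ℚ A)).toAlgebra
  have i5 : IsScalarTower ℚ A L := IsScalarTower.of_algebraMap_eq fun _ => rfl
  have h2 : Algebra.EssFiniteType A L := Algebra.EssFiniteType.of_isLocalization _ (nonZeroDivisors A)
  have h3 : Algebra.EssFiniteType ℚ L := Algebra.EssFiniteType.comp ℚ A L
  obtain ⟨W, hW, hW'⟩ := exists_places_perfect ℚ L (S.image (algebraMap A L))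
  have hinj : Function.Injective (algebraMap A L) := IsFractionRing.injective A L
  let ρ' : G →* GL2 L := (Matrix.GeneralLinearGroup.map (algebraMap A L)).comp ρ
  have hval : ∀ g, (ρ' g).val = (ρ g).val.map (algebraMap A L) := fun g => rfl
  have h5 : ∀ a : A, algebraMap A L a ∈
      Algebra.adjoin ℚ ((S.image (algebraMap A L) : Finset L) : Set L) := by
    intro a
    have ha : a ∈ Algebra.adjoin ℚ (S : Set A) := by rw [hS]; trivial
    induction ha using Algebra.adjoin_induction with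
    | mem x hx =>
      refine Algebra.subset_adjoin ?_
      rw [Finset.coe_image]
      exact ⟨x, hx, rfl⟩
    | algebraMap r =>
      rw [← IsScalarTower.algebraMap_apply]
      exact Subalgebra.algebraMap_mem _ r
    | add x y _ _ h1 h2 => rw [map_add]; exact add_mem h1 h2
    | mul x y _ _ h1 h2 => rw [map_mul]; exact mul_mem h1 h2
  have : Finite W := hW
  refine (HasTC.all fun v : W => hasTC_dv v.1 ρ').mono fun H hH γ hγ => ?_
  choose x hx using hH
  constructor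
  · refine eq_of_integral s _ ((isIntegral_algebraMap_iff hinj).1 (hW' _ (h5 _) fun v hv => ?_))
    have h6 := v.trace_ge (ρ' γ) (hx ⟨v, hv⟩ γ hγ).1 (x ⟨v, hv⟩) (hx ⟨v, hv⟩ γ hγ).2
    rw [hval, Matrix.trace_fin_two] at h6
    rw [Matrix.trace_fin_two, map_add]
    exact h6
  · refine eq_of_integral s _ ((isIntegral_algebraMap_iff hinj).1 (hW' _ (h5 _) fun v hv => ?_))
    have h6 := (hx ⟨v, hv⟩ γ hγ).1
    rw [hval, ← RingHom.mapMatrix_apply, ← RingHom.map_det] at h6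
    exact Or.inr h6.ge

/-- The entries. -/
theorem exists_entries {R : Type} [CommRing R] {G : Type} [Group G] [Group.FG G]
    (ρ : G →* Matrix.GeneralLinearGroup (Fin 2) R) :
    ∃ E : Finset R, ∀ g i j, (ρ g).val i j ∈ Subring.closure (E : Set R) := by
  classical
  obtain ⟨A, i1, ι, S, hι, hS, hent⟩ := exists_ring ρ
  refine ⟨S.image ι, fun g i j => ?_⟩
  obtain ⟨a, ha⟩ := hent g i j
  rw [← ha, Finset.coe_image, ← RingHom.map_closure, hS]
  exact ⟨a, trivial, rfl⟩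

/-- **The `p`-adic trees.** -/
theorem hasTC_padic {G : Type} [Group G] [hG : Group.FG G] (θ : G →* GL2 ℚ) :
    HasTC G fun H => ∃ d : ℤ, d ≠ 0 ∧ ∀ γ ∈ H, ∀ i k, ∃ z : ℤ, (d : ℚ) * (θ γ).val i k = z := by
  classical
  obtain ⟨E, hE⟩ := exists_entries θ
  obtain ⟨P, hP, hP'⟩ := exists_primes E
  have hprime : ∀ p : P, Fact (p : ℕ).Prime := fun p => ⟨hP p p.2⟩
  refine (HasTC.all fun p : P => hasTC_dv (padicDV (p : ℕ) (hp := hprime p)) θ).mono
    fun H hH => ?_
  choose x hx using hH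
  have hb := fun p : P => (padicDV (p : ℕ) (hp := hprime p)).bounded (x p)
  choose k hk using hb
  have hpos : ∀ p : P, (p : ℕ) ≠ 0 := fun p => (hP p p.2).ne_zero
  refine ⟨∏ p : P, ((p : ℕ) : ℤ) ^ k p, Finset.prod_ne_zero_iff.2 fun p _ =>
    pow_ne_zero _ (by exact_mod_cast hpos p), fun γ hγ i j => ?_⟩
  refine int_of_padic _ fun p hp => ?_
  have hint : ∀ z : ℤ, (padicDV p).ge 0 (z : ℚ) := fun z =>
    DV.ge_closure _ ∅ (by simp) _ (by
      have : ((z : ℤ) : ℚ) ∈ Subring.closure (∅ : Set ℚ) := intCast_mem _ z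
      exact this)
  by_cases hpP : p ∈ P
  · have h1 := hk ⟨p, hpP⟩ (θ γ) (hx ⟨p, hpP⟩ γ hγ).1 (hx ⟨p, hpP⟩ γ hγ).2 i j
    have h2 : (padicDV p).ge (k ⟨p, hpP⟩ : ℤ)
        ((∏ q : P, ((q : ℕ) : ℤ) ^ k q : ℤ) : ℚ) := by
      rw [← Finset.mul_prod_erase Finset.univ _ (Finset.mem_univ (⟨p, hpP⟩ : P))]
      push_cast
      have h3 : (padicDV p).ge (k ⟨p, hpP⟩ : ℤ) (((p : ℕ) : ℚ) ^ k ⟨p, hpP⟩) := by
        refine Or.inr ?_
        rw [DV.o_pow _ _ (by exact_mod_cast hp.out.ne_zero)]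
        have h4 : (padicDV p).o (p : ℚ) = 1 := (padicDV p).oπ
        rw [h4, mul_one]
      have h5 : (padicDV p).ge 0 (∏ q ∈ Finset.univ.erase (⟨p, hpP⟩ : P), ((q : ℕ) : ℚ) ^ k q) := by
        have := hint (∏ q ∈ Finset.univ.erase (⟨p, hpP⟩ : P), ((q : ℕ) : ℤ) ^ k q)
        push_cast at this
        exact this
      have h6 := (padicDV p).ge_mul h3 h5
      rwa [add_zero] at h6
    have h7 := (padicDV p).ge_mul h2 h1
    rwa [add_neg_cancel] at h7
  · have h1 := hP' p hp hpP _ (hE γ i j)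
    have h2 := (padicDV p).ge_mul (hint (∏ q : P, ((q : ℕ) : ℤ) ^ k q)) h1
    rwa [add_zero] at h2

/-- The entries lie in a finitely generated subalgebra. -/
theorem exists_subalgebra (F : Type) [Field F] [Algebra ℚ F] {G : Type} [Group G] [Group.FG G]
    (ρ : G →* GL2 F) :
    ∃ (A : Subalgebra ℚ F) (ρA : G →* Matrix.GeneralLinearGroup (Fin 2) A), A.FG ∧
      ∀ g, (ρA g).val.map (A.val : A →+* F) = (ρ g).val := by
  obtain ⟨E, hE⟩ := exists_entries ρ
  have h1 : ∀ x ∈ Subring.closure (E : Set F), x ∈ Algebra.adjoin ℚ (E : Set F) := by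
    intro x hx
    have h2 : Subring.closure (E : Set F) ≤ (Algebra.adjoin ℚ (E : Set F)).toSubring :=
      Subring.closure_le.2 Algebra.subset_adjoin
    exact h2 hx
  obtain ⟨ρA, hρA⟩ := exists_lift ((Algebra.adjoin ℚ (E : Set F)).val :
    Algebra.adjoin ℚ (E : Set F) →+* F) Subtype.val_injective ρ fun g i j =>
      ⟨⟨_, h1 _ (hE g i j)⟩, rfl⟩
  exact ⟨Algebra.adjoin ℚ (E : Set F), ρA, ⟨E, rfl⟩, hρA⟩

/-- **The trees and characters of a group of matrices**: the traces and determinants are those of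
integral matrices. -/
theorem hasTC_int (F : Type) [Field F] [Algebra ℚ F]
    (hF : ∀ A : Subalgebra ℚ F, A.FG → Nonempty (A →ₐ[ℚ] ℚ)) {G : Type} [Group G] [Group.FG G]
    (ρ : G →* GL2 F) : HasTC G fun H => ∃ φ : H →* GLZ,
      (∀ γ : H, (ρ γ).val.trace = algebraMap ℚ F (((φ γ).val.trace : ℤ) : ℚ)) ∧
      ∀ γ : H, (ρ γ).val.det = algebraMap ℚ F (((φ γ).val.det : ℤ) : ℚ) := by
  obtain ⟨A, ρA, hA, hρA⟩ := exists_subalgebra F ρ
  obtain ⟨s⟩ := hF A hA
  obtain ⟨S, hS⟩ : ∃ S : Finset A, Algebra.adjoin ℚ (S : Set A) = ⊤ := by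
    have := (Subalgebra.fg_iff_finiteType A).1 hA
    exact this.out
  let θ : G →* GL2 ℚ := (Matrix.GeneralLinearGroup.map (s : A →+* ℚ)).comp ρA
  have hθ : ∀ g, (θ g).val = (ρA g).val.map s := fun g => rfl
  have hθt : ∀ g, (θ g).val.trace = s (ρA g).val.trace := by
    intro g
    rw [hθ, Matrix.trace_fin_two, Matrix.trace_fin_two, map_add]
    rfl
  have hθd : ∀ g, (θ g).val.det = s (ρA g).val.det := by
    intro g
    have h1 : (θ g).val = (s : A →+* ℚ).mapMatrix (ρA g).val := rfl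
    rw [h1, ← RingHom.map_det]
    rfl
  have hAt : ∀ g, (ρ g).val.trace = ((ρA g).val.trace : A) := by
    intro g
    rw [← hρA, Matrix.trace_fin_two, Matrix.trace_fin_two]
    rfl
  have hAd : ∀ g, (ρ g).val.det = ((ρA g).val.det : A) := by
    intro g
    rw [← hρA, ← RingHom.mapMatrix_apply, ← RingHom.map_det]
    rfl
  refine ((hasTC_function A S hS s ρA).and (hasTC_padic θ)).mono fun H ⟨h1, d, hd, h2⟩ => ?_
  obtain ⟨φ, -, hφt, hφd⟩ := exists_integral ((Units.coeHom _).comp (θ.comp H.subtype)) d hd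
    fun γ i j => h2 γ γ.2 i j
  refine ⟨φ, fun γ => ?_, fun γ => ?_⟩
  · have h3 : (θ γ).val.trace = (((φ γ).val.trace : ℤ) : ℚ) := hφt γ
    rw [← h3, hθt, hAt]
    exact (congrArg (fun x : A => (x : F)) (h1 γ γ.2).1).symm
  · have h3 : (θ γ).val.det = (((φ γ).val.det : ℤ) : ℚ) := hφd γ
    rw [← h3, hθd, hAd]
    exact (congrArg (fun x : A => (x : F)) (h1 γ γ.2).2).symm

end Pool.Agent.Lib.MP_551055_al.GL
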